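import Pool.Agent.TH569.HP.Wrap

/-!
# The Singer-Hopf sign in dimension six: curvature operator nonpositive off a two-plane

At a point of a Riemannian six-manifold with sectional curvature `K ≤ -κ` (`κ ≥ 0`) where the
curvature operator is at most `-κ` on `U ∧ V` for one four-dimensional subspace `U` of the tangent
space `V` (a subspace of codimension one in `Λ² V`; nothing else is assumed in the remaining
direction), the Gauss-Bonnet-Chern integrand is at most its value for constant curvature `-κ`. So a
closed six-manifold with `K ≤ 0` and such a subspace at every point has `-χ ≥ 0`.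

The proof is in `Pool/Agent/TH569/HP/`. If `R + α ν ⊗ ν = ∑ f_j ⊗ f_j` with `ν` decomposable and
the `f_j` diagonalise the form `(f, g) ↦ ν ∧ f ∧ g`, then the integrand is
`∑ N(f_i, f_j, f_k)² - 3 α ∑ N(ν, f_j, f_j)²` (`N` the polarised Pfaffian), and the negative term is
controlled by the sectional curvatures of the planes dual to the squares of the degenerate forms
`f_j + s_j ν`.
-/

set_option autoImplicit false

namespace Pool.Agent.Results.MP_9d0d86_gt.CodimensionTwoDimSix

open Hopf6 MeasureTheory Pool.Agent.TH569.HP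

/-- **The Singer-Hopf sign in dimension six** for nonpositive curvature and a curvature operator
that is nonpositive on `U ∧ V`, `dim U = 4`. -/
theorem result :
    (∀ (V : Type) [NormedAddCommGroup V] [InnerProductSpace ℝ V]
      (e : OrthonormalBasis (Fin 6) ℝ V) (R : V → V → V → V → ℝ), AlgCurv R →
      ∀ κ : ℝ, 0 ≤ κ → SecLE R κ →
        ∀ U : Submodule ℝ V, 4 ≤ Module.finrank ℝ U → OpLEMix R κ U →
          Hopf6.gbc e R ≤ -(roundGB κ)) ∧
    (∀ (M : Type) [MeasurableSpace M] (μ : Measure M) [IsFiniteMeasure μ] (K : CurvField M)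
      (κ : ℝ), 0 ≤ κ →
      (∀ p, SecLE (K.R p) κ ∧
        ∃ U : Submodule ℝ (K.V p), 4 ≤ Module.finrank ℝ U ∧ OpLEMix (K.R p) κ U) →
      Integrable K.gbc μ → roundGB κ * μ.real Set.univ ≤ -∫ p, K.gbc p ∂μ) := by
  refine ⟨fun V _ _ e R hR κ hκ hsec U hU hop => mix_point e hR hκ hsec U hU hop, ?_⟩
  intro M _ μ _ K κ hκ h hint
  have h1 : ∀ p, K.gbc p ≤ -(roundGB κ) := by
    intro p
    obtain ⟨hs, U, hU, hop⟩ := h p
    exact mix_point (K.e p) (K.curv p) hκ hs U hU hop
  have h2 : ∫ p, K.gbc p ∂μ ≤ ∫ _, -(roundGB κ) ∂μ :=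
    integral_mono hint (integrable_const _) h1
  rw [integral_const, smul_eq_mul] at h2
  linarith

end Pool.Agent.Results.MP_9d0d86_gt.CodimensionTwoDimSix
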