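import Pool.Agent.TH652.Dual7
import Pool.Agent.W497.CC.Sum

/-!
# The Singer-Hopf inequality for nonpositively curved cubical manifolds with vertex links in the class `AQ`

A finite cubical complex whose vertex links are flag homology spheres is a closed homology manifold (a closed
topological manifold if the links are combinatorial spheres); it is nonpositively curved (Gromov's link condition) and
therefore aspherical.
-/

set_option autoImplicit false

namespace Pool.Agent.Results.MP_9d0d86_gt.CubicalAQLinks

open Pool.Agent.W907.SG Pool.Agent.TH652.Above Pool.Agent.W497.CC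

open Classical in
/-- the flag complex of the graph `G`: the set of its cliques -/
noncomputable def flagComplex {n : ℕ} (G : SimpleGraph (Fin n)) : Finset (Finset (Fin n)) :=
  Finset.univ.filter fun F => G.IsClique (F : Set (Fin n))

theorem omega_flagComplex {n : ℕ} (G : SimpleGraph (Fin n)) :
    Pool.Agent.W497.FS.omega (flagComplex G) = chiW G := by
  classical
  unfold Pool.Agent.W497.FS.omega flagComplex chiW
  rw [Finset.sum_filter]
  refine Finset.sum_congr rfl fun F _ => ?_
  split_ifs
  · rw [div_pow]
  · rfl

/-- Let `P` be the poset of cubes of a finite cubical complex such that the link of every vertex is the flag complex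
of a graph, is a homology `(2 m - 1)`-sphere (and a homology manifold) over the reals, and lies in the class
`AQ (2 m)`. Then `(-1)^m χ(P) ≥ 0`. -/
theorem result (m : ℕ) (P : Type) [Fintype P] [PartialOrder P] (dim : P → ℕ) (hP : IsCubical P dim)
    (hL : ∀ v : P, dim v = 0 → ∃ (n : ℕ) (G : SimpleGraph (Fin n)),
      IsLink v (flagComplex G) ∧ HSph (2 * m) G ∧ AQ (2 * m) G) :
    0 ≤ (-1) ^ m * chi P dim := by
  classical
  have h1 : ∀ v : P, ∃ p : Σ n : ℕ, SimpleGraph (Fin n), dim v = 0 →
      IsLink v (flagComplex p.2) ∧ HSph (2 * m) p.2 ∧ AQ (2 * m) p.2 := by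
    intro v
    by_cases hv : dim v = 0
    · obtain ⟨n, G, h⟩ := hL v hv
      exact ⟨⟨n, G⟩, fun _ => h⟩
    · exact ⟨⟨0, ⊥⟩, fun h => absurd h hv⟩
  choose p hp using h1
  have h2 := chi_eq hP (fun v => (p v).1) (fun v => flagComplex (p v).2) (fun v hv => (hp v hv).1)
    (fun v _ F hF G hG => by
      unfold flagComplex at hF ⊢
      rw [Finset.mem_filter] at hF ⊢
      exact ⟨Finset.mem_univ _, hF.2.subset (by exact_mod_cast hG)⟩)
  have h3 : (0 : ℚ) ≤ (-1) ^ m * ((chi P dim : ℤ) : ℚ) := by
    rw [h2, Finset.mul_sum]
    refine Finset.sum_nonneg fun v hv => ?_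
    obtain ⟨-, hS, hA⟩ := hp v (Finset.mem_filter.mp hv).2
    rw [omega_flagComplex]
    exact charney_davis_AQ hS hA
  exact_mod_cast h3

end Pool.Agent.Results.MP_9d0d86_gt.CubicalAQLinks
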