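import Pool.Agent.TH594.HR.Pt

/-!
# The sign `(-1) ^ m` under a lower bound of the curvature operator and negative Ricci curvature

Let `n = 2 m ≥ 6`. At a point of a Riemannian `n`-manifold where all eigenvalues of the curvature operator
are at least `-c`, `c > 0`, and the Ricci curvature is at most `-(n - 1) κ` (no upper bound of the curvature
operator or of the sectional curvature), put `x = m (1 - κ / c)`, `r = (2 m - 1) (1 - κ / c)` and
`y = m + scal / (2 c (2 m - 1))`, so that `0 ≤ y ≤ x`. If `x ≤ 8 / 5`, `(-1) ^ m` times the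
Gauss-Bonnet-Chern integrand is at least `phi m r y` times its value for constant curvature `c`, where

`phi m r y = 1 - y + (1 - (m - 2) r / (3 (2 m - 5))) y (m y - r) / (2 (m - 1))`,

and `phi m r y ≥ psi m x = phi m r x`. So it is positive if `psi m x > 0`, which is the case in dimension
six for `c ≤ 13 κ / 8` and in all dimensions `n ≥ 8` for `n (1 - κ / c) ≤ 2.62`. By comparison, the sharp
bound in terms of the scalar curvature only (`SharpScalarPinching`) is `n (1 - κ / c) ≤ 2`, i.e.
`c ≤ 3 κ / 2` in dimension six, where `-κ` is the mean of the curvature.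

The proof (`Pool/Agent/TH594/HR/`, over `Pool/Agent/TH594/HP/`): the curvature operator of
`R + c` is a sum of squares of two-forms `ν_a`, the integrand is the alternating sum of the traces
`w_j = ∑ |ν_{a_1} ∧ … ∧ ν_{a_j}|²`; an inequality of Gallot-Meyer type and the Ricci bound give
`w_{j+1} ≤ 2 ρ (n - 2 j) w_j`, `ρ = (n - 1) (c - κ)`, and `w_2` is bounded below by the scalar curvature
and `ρ`.
-/

namespace Pool.Agent.Results.MP_9d0d86_gt.RicciOneSidedOperator

open MeasureTheory
open Pool.Agent.TH594.HR Pool.Agent.TH594.HP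
open Pool.Agent.W666.GB (AlgCurv gbc scal roundGB CurvField)
open Pool.Agent.W669.HD (addT unitT negT OpNonneg)

/-- The Gauss-Bonnet-Chern integrand under a lower bound of the curvature operator and an upper bound of
the Ricci curvature. -/
theorem result :
    -- the pointwise inequality
    (∀ (m : ℕ) (V : Type) [NormedAddCommGroup V] [InnerProductSpace ℝ V]
      (e : OrthonormalBasis (Fin m × Bool) ℝ V) (R : V → V → V → V → ℝ) (c κ : ℝ),
      3 ≤ m → AlgCurv R → 0 < c →
      OpNonneg (addT R fun x y z w => c * unitT x y z w) →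
      (∀ x : V, ric e R x ≤ -((2 * m - 1) * κ) * ‖x‖ ^ 2) → m * (1 - κ / c) ≤ 8 / 5 →
        roundGB m c * phi m ((2 * m - 1) * (1 - κ / c)) (m + scal e R / (2 * c * (2 * m - 1))) ≤
          (-1) ^ m * gbc e R ∧
        psi m (m * (1 - κ / c)) ≤
          phi m ((2 * m - 1) * (1 - κ / c)) (m + scal e R / (2 * c * (2 * m - 1)))) ∧
    -- the explicit ranges: `c ≤ 13 κ / 8` in dimension six, `2 m (1 - κ / c) ≤ 2.62` from eight on
    (∀ c κ : ℝ, 0 < c → c ≤ 13 / 8 * κ → 0 < psi 3 (3 * (1 - κ / c)) ∧ 3 * (1 - κ / c) ≤ 8 / 5) ∧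
    (∀ (m : ℕ) (c κ : ℝ), 4 ≤ m → 0 < c → 2 * m * (1 - κ / c) ≤ 262 / 100 →
      0 < psi m (m * (1 - κ / c)) ∧ m * (1 - κ / c) ≤ 8 / 5) ∧
    -- the sign of the integral
    (∀ (m : ℕ) (M : Type) [MeasurableSpace M] (μ : Measure M) (K : CurvField m M) (c κ : M → ℝ),
      3 ≤ m → μ ≠ 0 → Integrable K.gb μ →
      (∀ p, 0 < c p ∧ OpNonneg (addT (K.R p) fun x y z w => c p * unitT x y z w) ∧
        (∀ x : K.V p, ric (K.e p) (K.R p) x ≤ -((2 * m - 1) * κ p) * ‖x‖ ^ 2) ∧
        m * (1 - κ p / c p) ≤ 8 / 5 ∧ 0 < psi m (m * (1 - κ p / c p))) →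
      0 < (-1) ^ m * ∫ p, K.gb p ∂μ) := by
  refine ⟨?_, ?_, ?_, ?_⟩
  · intro m V _ _ e R c κ hm hR hc h hK hx
    exact point_neg e hR hc hm h hK hx
  · intro c κ hc h
    have h1 : 8 / 13 ≤ κ / c := by
      rw [le_div_iff₀ hc]
      linarith
    exact ⟨psi_three (by linarith), by linarith⟩
  · intro m c κ hm hc h
    exact ⟨psi_four (by exact_mod_cast hm) (by linarith), by linarith⟩
  · intro m M _ μ K c κ hm hμ hi h
    have hμ' : μ Set.univ ≠ 0 := by simpa using hμ
    have h0 : ∀ p, 0 < (-1) ^ m * K.gb p := by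
      intro p
      obtain ⟨hc, hop, hK, hx, hp⟩ := h p
      have h1 := point_neg (K.e p) (K.curv p) hc hm hop hK hx
      have h2 := mul_pos (Pool.Agent.W666.GB.roundGB_pos (m := m) hc) (hp.trans_le h1.2)
      exact h2.trans_le h1.1
    rw [← integral_const_mul]
    exact pos_of μ _ (fun p => (h0 p).le) (hi.const_mul _) Set.univ (fun p _ => h0 p) hμ'

end Pool.Agent.Results.MP_9d0d86_gt.RicciOneSidedOperator
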