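import Pool.Agent.TH594.HP.Field

/-!
# A lower bound of `(-1)^m χ` by the total scalar curvature

Let `n = 2 m`. For a closed Riemannian `n`-manifold with curvature operator at least `-c` and scalar
curvature at most `-c (n - 1) (n - 2)` the Singer–Hopf sign holds, and `(-1)^m χ` is at least an
explicit positive constant times the integral of `-scal - c (n - 1) (n - 2)`, with equality for
constant curvature `-c`. No upper bound of the sectional curvatures is assumed.

The proof is in `Pool/Agent/TH594/HP/` (Gallot–Meyer type inequality for exterior products).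
-/

set_option autoImplicit false

namespace Pool.Agent.Results.MP_9d0d86_gt.SharpScalarPinching

open Pool.Agent.W666.GB Pool.Agent.W669.HD MeasureTheory

/-- **The Singer–Hopf sign for curvature operator `≥ -c` and scalar curvature
`≤ -c (n - 1) (n - 2)`, `n = 2 m`, with a lower bound by the total scalar curvature.** -/
theorem result :
    -- (1) the pointwise signs
    (∀ (m : ℕ) (V : Type) [NormedAddCommGroup V] [InnerProductSpace ℝ V]
      (e : OrthonormalBasis (Fin m × Bool) ℝ V) (R : V → V → V → V → ℝ) (c : ℝ),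
      AlgCurv R → 0 ≤ c → OpNonneg (addT R fun x y z w => c * unitT x y z w) →
      scal e R ≤ -(c * ((2 * m - 1) * (2 * m - 2))) →
        0 ≤ (-1) ^ m * gbc e R ∧
          (0 < c → scal e R < -(c * ((2 * m - 1) * (2 * m - 2))) → 0 < (-1) ^ m * gbc e R)) ∧
    -- (2) the lower bound by the total scalar curvature
    (∀ (m : ℕ) (M : Type) [MeasurableSpace M] (μ : Measure M) [IsFiniteMeasure μ]
      (K : CurvField m M) (c : ℝ), 0 < c →
      (∀ p, OpNonneg (addT (K.R p) fun x y z w => c * unitT x y z w) ∧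
        scal (K.e p) (K.R p) ≤ -(c * ((2 * m - 1) * (2 * m - 2)))) →
      Integrable K.gb μ → Integrable (fun p => scal (K.e p) (K.R p)) μ →
        roundGB m c * (∫ p, -(scal (K.e p) (K.R p)) ∂μ - c * ((2 * m - 1) * (2 * m - 2)) *
          μ.real Set.univ) ≤ 2 * c * (2 * m - 1) * ((-1) ^ m * ∫ p, K.gb p ∂μ)) ∧
    -- (3) the signs of the integral when the bound `c` varies
    (∀ (m : ℕ) (M : Type) [MeasurableSpace M] (μ : Measure M) (K : CurvField m M) (c : M → ℝ),
      (∀ p, 0 ≤ c p ∧ OpNonneg (addT (K.R p) fun x y z w => c p * unitT x y z w) ∧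
        scal (K.e p) (K.R p) ≤ -(c p * ((2 * m - 1) * (2 * m - 2)))) →
      0 ≤ (-1) ^ m * ∫ p, K.gb p ∂μ ∧
        (Integrable K.gb μ → μ {p | 0 < c p ∧ scal (K.e p) (K.R p) <
          -(c p * ((2 * m - 1) * (2 * m - 2)))} ≠ 0 → 0 < (-1) ^ m * ∫ p, K.gb p ∂μ)) :=
  ⟨fun _ _ _ _ e _ _ hR hc h hs => ⟨Pool.Agent.TH594.HP.sign e hR hc h hs,
      fun hc' hs' => Pool.Agent.TH594.HP.sign_strict e hR hc' h hs'⟩,
    fun _ _ _ μ _ K _ hc h hi hi' => Pool.Agent.TH594.HP.field_point μ K hc h hi hi',
    fun _ _ _ μ K c h => Pool.Agent.TH594.HP.field_sign μ K c h⟩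

end Pool.Agent.Results.MP_9d0d86_gt.SharpScalarPinching
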